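import Pool.Agent.K7.H9.TP.Sys
import Pool.Agent.K7.H9.TP.Times
import Pool.Agent.R937.PZ.Geo2

/-!
# Homological and numerical equivalence on the product of an abelian variety over a finite field that
satisfies the Tate conjecture with an arbitrary variety

Let `k` be an algebraic closure of the field with `p` elements, and let `Y` be an abelian variety over
`k`, coming from the field with `q = p ^ a` elements (`RedAV`: each abelian variety is isogenous to the
reduction of an abelian variety of CM type, by Honda and Tate). Let `U` be **any** smooth projective
variety, of dimension `d`, over the field with `q` elements. We assume that the eigenvalues `α` of the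
Frobenius endomorphism on the cohomology of `U` are independent of `Y` (`AreIndependent`): for some
`N > 0` the intersection of the field `ℚ(α ^ N)` with the compositum of the Galois closures of the CM
fields of the factors of `Y` is totally real; and that no eigenvalue in odd degree is of supersingular
type (`HasNoOddSupersingular`), for example that the odd cohomology of `U` vanishes. Nothing else is
assumed on `U`: no semisimplicity, no form of the Tate conjecture or of the standard conjectures.
The cohomology is any Weil cohomology, with coefficients extended to an algebraically closed field `Ω`,
for instance `ℓ`-adic cohomology for every `ℓ ≠ p`, or crystalline cohomology.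

**Theorem 1.** Let `Y` be **any** abelian variety that satisfies the Tate conjecture (`TateAV`).

1. (Künneth formula for cycles.) The class of each algebraic cycle on `Y × U` is a linear combination
   (with coefficients in `Ω`) of classes of cycles `f × w`, where `f` is a cycle on `Y` and `w` a cycle on
   `U`.
2. For each `c`, **numerical and homological equivalence coincide for the cycles of codimension `c` on
   `Y × U` if and only if they coincide on `U` for the cycles of the codimensions `c - i`,
   `0 ≤ i ≤ dim Y`**.

So the conjecture is true for `Y × U` (all codimensions) if it is true for `U`, for instance for all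
surfaces `U` as above; it is true for the cycles of codimension at most two on `Y × U` if it is true for
the cycles of codimension two on `U`. If `U` is a point, then it is the conjecture for `Y`.

**Theorem 2.** Let `𝒜` be the system of all linear combinations of classes of algebraic cycles on abelian
varieties over finite fields of characteristic `p` (`IsStable`: it contains the classes of degree zero
and the Tate classes of degree two, and is stable under the usual operations). Then all Tate classes of
`Y` are in `𝒜`

1. for all products `Y` of any number of abelian varieties of dimension at most three, if the
   reductions of the Hodge classes of degree four on products of at most four abelian varieties of CM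
   type of dimension at most three are algebraic (`FourHodge`);
2. unconditionally (`HasKnownClasses`: using theorems of Markman and Ramón Marí), for the abelian
   varieties `Y` of the following kinds (`IsGoodAVP`): all abelian varieties of dimension at most five;
   all abelian varieties that are isogenous to a product of a supersingular abelian variety and of
   abelian varieties of dimension at most three (any number, any multiplicity), such that any two
   factors of dimension three whose CM fields have the same Galois closure satisfy one of the following:
   their fields are Galois over `ℚ`; one of them is supersingular; they are isogenous; neither of them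
   is ordinary and their `p`-ranks are not `{1, 2}`.

In the Lean statement `M b = H^b(U)`, and the part `H^k(Y) ⊗ H^b(U)` of the cohomology of `Y × U` is the
space of the alternating maps in `k` variables from the Tate module of `Y` to `M b`. The structure
`IsCycles` lists what is used on algebraic cycles, all of which is known: products, push-forward
along `Y × U → U`, intersection numbers are integers, the action of Frobenius, and that powers of an
ample class on `Y` are not zero.

Idea of the proof of Theorem 1: a cycle on `Y × U` is a Tate class over a finite extension of the
ground field. If `b α` is a power of `q` up to a root of unity, `b` a product of Frobenius eigenvalues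
of `Y`, and if `τ` fixes `α` up to a root of unity and induces the complex conjugation on the CM fields
of `Y` then `b` and its conjugate agree up to a root of unity, so that `b` itself is of Tate type. So the
coefficient of the cycle at each monomial in the eigenforms of `Y` is, up to a factor, the push-forward
of its product with a Tate class `f` on `Y`, the contraction of the volume form with eigenvectors; and
`f` is a combination of cycles. (This is the proof of the starting hand-in
`MP_f569db_ag.FiveAndSurfacesTimesVarieties`, which is the case of `IsGoodAVS`; the argument is carried
out here for all abelian varieties that satisfy the Tate conjecture.)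
-/

set_option autoImplicit false

namespace Pool.Agent.Results.MP_0c8446_ag.AbelianTimesAnyVariety

open Pool.Agent.W495.TA Pool.Agent.K7.H9.TP Module
open Pool.Agent.R937.PG (IsGoodAVP)
open Pool.Agent.Y137.DU (AreIndependent HasNoOddSupersingular KunnethFormula ConjectureDTimes
  ConjectureD combination_of_mem)

/-- **Homological and numerical equivalence on `Y × U`**, `Y` an abelian variety over a finite field
that satisfies the Tate conjecture and `U` an arbitrary variety with independent Frobenius
eigenvalues. -/
theorem result (p : ℕ) [Fact p.Prime] (ν : PadicAlgCl p ≃+* ℂ) (Ω : Type) [Field Ω]
    [IsAlgClosed Ω] [CharZero Ω] :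
    (∀ (Y : RedAV p ν) (M : ℕ → Type) [∀ b, AddCommGroup (M b)] [∀ b, Module Ω (M b)]
      [∀ b, FiniteDimensional Ω (M b)] (d : ℕ) (φ : ∀ b, M b →ₗ[Ω] M b)
      (B : ∀ b b', M b →ₗ[Ω] M b' →ₗ[Ω] Ω) (ZY : ∀ k : ℕ, Set ((TM Ω Y) [⋀^Fin k]→ₗ[Ω] Ω))
      (ZU : ∀ b, AddSubgroup (M b)) (Z : ∀ k b : ℕ, Set ((TM Ω Y) [⋀^Fin k]→ₗ[Ω] M b)),
      IsCycles Y d φ B ZY ZU Z → AreIndependent Y φ →
      HasNoOddSupersingular ((p : Ω) ^ Y.a) φ → TateAV Y ZY →
      KunnethFormula Y ZY ZU Z ∧ ∀ c, ConjectureDTimes Y d B Z c ↔
        ∀ i, i ≤ c → 2 * i ≤ finrank ℚ Y.X.H1 → ConjectureD d B ZU (c - i)) ∧
    ∀ 𝒜 : Classes p ν Ω, IsStable 𝒜 →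
      (FourHodge 𝒜 → AllTate 𝒜) ∧
      (HasKnownClasses 𝒜 → ∀ Y : RedAV p ν, IsGoodAVP Y → TateOn 𝒜 Y) :=
  ⟨fun _ _ _ _ _ _ _ _ _ _ _ hZ hφ hodd hT =>
    ⟨fun _ _ _ hkb _ hx => combination_of_mem (kunneth hT hZ hφ hodd hkb hx),
      fun c => conjectureD_iff hT hZ hφ hodd c⟩,
    fun 𝒜 h𝒜 => ⟨((tfae_tate h𝒜).out 2 0).1, fun hk Y hY s m hs f hf => mem_of_algS h𝒜 hk
      (Pool.Agent.R937.PG.main hY s m hs f hf)⟩⟩

end Pool.Agent.Results.MP_0c8446_ag.AbelianTimesAnyVariety
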