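import Pool.Agent.K7.H8.DTop

/-!
# Homological and numerical equivalence on varieties with small Chow groups, over any field

Let `X` be a smooth projective variety of dimension `d` over an (algebraically closed) field `k` of any characteristic, and
let `W` be any Weil cohomology theory. Homological and numerical equivalence coincide in
codimension at most one (Matsusaka, 1957; see the section on known results of the problem) and for
zero-cycles. In positive characteristic the question is open already for curves on threefolds.

**Theorem.** Suppose that `CH_i(X)` is supported in dimension `≤ i + 2` for `i = 0, …, s`
(universally). Then homological and numerical equivalence coincide on `X` in codimension at most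
`s + 2` and in dimension at most `s + 1`. So they coincide on `X` if `d ≤ 2 s + 4`.

For `s = 0` the assumption is that `CH_0(X)` is supported on a closed subset of dimension at most two.
So the two relations coincide for example, in every characteristic and for every Weil cohomology
theory, for

* all uniruled threefolds;
* all rationally chain connected varieties (in particular all Fano varieties) of dimension at most
  four;
* all varieties of dimension at most four which have a fibration with rationally chain connected
  general fibre over a base of dimension at most two.

The assumption enters in the form of the decomposition of the diagonal (Bloch and Srinivas for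
`s = 0`, Paranjape and Laterveer for all `s`, with alterations in the place of resolutions of
singularities): the class of the diagonal is a linear combination of direct images of classes of
`d`-dimensional cycles `Γ` under `f × g : V × Y → X × X`, where either `dim V ≤ d - i`,
`dim Y ≤ i + 2` for some `i ≤ s`, or `dim V ≤ d - s - 1`. We only use `dim V + dim Y ≤ d + 2` in the
first case, and allow also all pairs for which the two relations coincide on `V` or on `Y` (for
example curves, surfaces, products of such with a projective space, or, for `ℓ`-adic cohomology and
the primes `ℓ` of Clozel's theorem, abelian varieties over finite fields). It is enough that the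
decomposition holds in cohomology.
-/

set_option autoImplicit false

open CategoryTheory AlgebraicGeometry

universe u v

namespace Pool.Agent.Results.MP_0c8446_ag.SmallChowAnyField

open Pool.Agent.H914 VarClass Obj WeilCohomology Pool.Agent.H447 Pool.Agent.K7.H8

/-- The diagonal of `X` decomposes (in cohomology): its class is a linear combination of direct
images of classes of cycles on `V × Y`, of dimension `dim X`, under `f × g : V × Y → X × X`, where
* `dim V + dim Y ≤ dim X + 2`, or
* homological and numerical equivalence coincide on `V` or on `Y`, or
* `dim V ≤ dim X - s - 1`. -/
def DiagonalDecomposes {k : Type u} [Field k] {𝒱 : VarClass k} {ops : CycleOps 𝒱}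
    (W : WeilCohomology.{u, v} ops) (X : 𝒱.Obj) (s : ℕ) : Prop :=
  W.cl (X.prod X) (ops.push (diag X) X.V.fundCycle) ∈
    Submodule.span W.K (carriedBy W X fun V Y =>
      V.dim + Y.dim ≤ X.dim + 2 ∨ HomEqNum W V ∨ HomEqNum W Y ∨ V.dim + s < X.dim)

/-- **Homological and numerical equivalence on varieties with small Chow groups, over any
field.** The assumption `matsusaka` is the theorem of Matsusaka that the two relations coincide in
codimension at most one. -/
theorem result {k : Type u} [Field k] {𝒱 : VarClass k} {ops : CycleOps 𝒱}
    (W : WeilCohomology.{u, v} ops) (matsusaka : ∀ Y : 𝒱.Obj, ∀ i ≤ 1, HomEqNumIn W Y i)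
    (X : 𝒱.Obj) (s : ℕ) (hX : DiagonalDecomposes W X s) :
    (∀ j, j ≤ s + 2 ∨ X.dim ≤ j + s + 1 → HomEqNumIn W X j) ∧
      (X.dim ≤ 2 * s + 4 → HomEqNum W X) := by
  have hdiag : W.cl (X.prod X) (ops.push (diag X) X.V.fundCycle) = W.push (diag X) 1 := by
    rw [W.cl_push, W.cl_fund]
  have key : ∀ j, j ≤ s + 2 ∨ X.dim ≤ j + s + 1 → HomEqNumIn W X j := by
    intro j hj
    refine transfer (a := 1) (b := 0) (s := s) matsusaka
      (fun Y i hi => homEqNumIn_top (by omega)) X ?_ j (by omega)
    rw [← hdiag]
    exact hX
  refine ⟨key, fun hd => ?_⟩
  rw [homEqNum_iff]
  intro j
  exact key j (by omega)

end Pool.Agent.Results.MP_0c8446_ag.SmallChowAnyField
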