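import Pool.Agent.K7.H8.DHdg

/-!
# Homological and numerical equivalence on varieties with small Chow groups, in characteristic zero

Let `X` be a smooth projective variety of dimension `d` over a field of characteristic zero, and let
`W` be a classical Weil cohomology theory (with Hodge structures satisfying the Hodge index theorem
and the theorem of Lefschetz on classes of type `(1, 1)`). Homological and numerical equivalence are
known to coincide for all varieties of dimension at most four, and for cycles of codimension at
most two or dimension at most one on all varieties (Lieberman). For fivefolds the question is open.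

**Theorem.** Suppose that `CH_i(X)` is supported in dimension `≤ i + 4` for `i = 0, …, s`
(universally). Then homological and numerical equivalence coincide on `X` in codimension at most
`s + 3` and in dimension at most `s + 2`. So they coincide on `X` if `d ≤ 2 s + 6`.

For `s = 0` the assumption is that `CH_0(X)` is supported on a closed subset of dimension at most four.
So the two relations coincide for example for

* all uniruled varieties of dimension five;
* all rationally connected varieties (in particular all Fano varieties) of dimension at most six;
* all varieties of dimension at most six with a maximal rationally connected fibration over a base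
  of dimension at most four.

The assumption enters in the form of the decomposition of the diagonal (Bloch and Srinivas for
`s = 0`, Paranjape and Laterveer for all `s`): the class of the diagonal is a linear combination of
direct images of classes of `d`-dimensional cycles `Γ` under `f × g : V × Y → X × X`, where either
`dim V ≤ d - i`, `dim Y ≤ i + 4` for some `i ≤ s`, or `dim V ≤ d - s - 1`. We only use
`dim V + dim Y ≤ d + 4` in the first case, and allow also all pairs for which the two relations
coincide on `V` or on `Y`. It is enough that the decomposition holds in cohomology.

The motive of `X` is not a direct summand of a sum of motives of varieties of dimension at most four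
in this generality (already for rationally connected sixfolds). The proof uses the decomposition and
its transpose: a numerically trivial cycle `z` of codimension `j` is the sum of the cycles
`g_* Γ_* f^* z`, and also of the cycles `f_* Γ^* g^* z`. For small `j` the cycles `g^* z` or
`Γ^* g^* z` have codimension at most two or dimension at most one on `Y` or `V`, for large `j` the
cycles `f^* z` or `Γ_* f^* z`.
-/

set_option autoImplicit false

open CategoryTheory AlgebraicGeometry

universe u v

namespace Pool.Agent.Results.MP_0c8446_ag.SmallChowGroups

open Pool.Agent.H914 VarClass Obj WeilCohomology Pool.Agent.H447 Pool.Agent.K7.H8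
open Pool.Agent.Y133.Hdg (HodgeStr HodgeIn)

/-- The diagonal of `X` decomposes (in cohomology): its class is a linear combination of direct
images of classes of cycles on `V × Y`, of dimension `dim X`, under `f × g : V × Y → X × X`, where
* `dim V + dim Y ≤ dim X + 4`, or
* homological and numerical equivalence coincide on `V` or on `Y`, or
* `dim V ≤ dim X - s - 1`. -/
def DiagonalDecomposes {k : Type u} [Field k] {𝒱 : VarClass k} {ops : CycleOps 𝒱}
    (W : WeilCohomology.{u, v} ops) (X : 𝒱.Obj) (s : ℕ) : Prop :=
  W.cl (X.prod X) (ops.push (diag X) X.V.fundCycle) ∈
    Submodule.span W.K (carriedBy W X fun V Y =>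
      V.dim + Y.dim ≤ X.dim + 4 ∨ HomEqNum W V ∨ HomEqNum W Y ∨ V.dim + s < X.dim)

/-- **Homological and numerical equivalence on varieties with small Chow groups.** -/
theorem result {k : Type u} [Field k] {𝒱 : VarClass k} {ops : CycleOps 𝒱}
    (W : WeilCohomology.{u, v} ops) [Algebra W.K ℝ] (Ψ : HodgeStr W)
    (lefschetz11 : ∀ Y : 𝒱.Obj, HodgeIn Ψ Y 1) (X : 𝒱.Obj) (s : ℕ)
    (hX : DiagonalDecomposes W X s) :
    (∀ j, j ≤ s + 3 ∨ X.dim ≤ j + s + 2 → HomEqNumIn W X j) ∧
      (X.dim ≤ 2 * s + 6 → HomEqNum W X) := by
  have hdiag : W.cl (X.prod X) (ops.push (diag X) X.V.fundCycle) = W.push (diag X) 1 := by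
    rw [W.cl_push, W.cl_fund]
  have key : ∀ j, j ≤ s + 3 ∨ X.dim ≤ j + s + 2 → HomEqNumIn W X j := by
    intro j hj
    refine transfer (a := 2) (b := 1) (s := s)
      (fun Y i hi => homEqNumIn_of_lefschetz (lefschetz11 Y) (Or.inl hi))
      (fun Y i hi => homEqNumIn_of_lefschetz (lefschetz11 Y) (Or.inr hi)) X ?_ j (by omega)
    rw [← hdiag]
    exact hX
  refine ⟨key, fun hd => ?_⟩
  rw [homEqNum_iff]
  intro j
  exact key j (by omega)

end Pool.Agent.Results.MP_0c8446_ag.SmallChowGroups
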